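import Pool.Agent.W2helper5.QD.Stm

/-!
Piece T1 of project QD (helper5), MP_79dd7e_co: trigonometric facts on `x1`, `xi`.
-/

set_option autoImplicit false

namespace Pool.Agent.W2helper51.QD

open Pool.Agent.W2helper5.QD

theorem T1 : Pool.Agent.W2helper5.QD.P_T1 := by
  intro α hα0 hα
  have hpi := Real.pi_pos
  have hc : 0 < Real.cos α := Real.cos_pos_of_mem_Ioo ⟨by linarith, by linarith⟩
  have hs : 0 < Real.sin α := Real.sin_pos_of_pos_of_lt_pi hα0 (by linarith)
  have hs2 : 0 < Real.sin (α / 2) := Real.sin_pos_of_pos_of_lt_pi (by linarith) (by linarith)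
  have hs2' : Real.sin (α / 2) < 1 := by
    have h1 : Real.sin (α / 2) < α / 2 := Real.sin_lt (by linarith)
    have h2 : Real.pi < 4 := Real.pi_lt_four
    linarith
  have hc1 : Real.cos α < 1 := by
    have := Real.cos_lt_cos_of_nonneg_of_le_pi_div_two (le_refl (0:ℝ)) (by linarith) hα0
    rwa [Real.cos_zero] at this
  -- basic facts on kap
  have hk : ∀ θ, 0 ≤ θ → θ ≤ α / 2 → 0 < Real.cos θ ∧ 0 < Real.cos (α - θ) ∧
      kap α θ ^ 2 = Real.cos α * Real.cos θ / Real.cos (α - θ) ∧ Real.cos α < kap α θ ∧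
      kap α θ ≤ 1 ∧ Real.sqrt (Real.cos α) ≤ kap α θ := by
    intro θ h0 h1
    have hcθ : 0 < Real.cos θ := Real.cos_pos_of_mem_Ioo ⟨by linarith, by linarith⟩
    have hD : 0 < Real.cos (α - θ) := Real.cos_pos_of_mem_Ioo ⟨by linarith, by linarith⟩
    have hD1 : Real.cos (α - θ) ≤ 1 := Real.cos_le_one _
    have hsθ : 0 ≤ Real.sin θ := Real.sin_nonneg_of_nonneg_of_le_pi h0 (by linarith)
    have hcc : Real.cos α < Real.cos θ :=
      Real.cos_lt_cos_of_nonneg_of_le_pi_div_two h0 (by linarith) (by linarith)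
    have hcD : Real.cos (α - θ) ≤ Real.cos θ :=
      Real.cos_le_cos_of_nonneg_of_le_pi h0 (by linarith) (by linarith)
    have hexp := Real.cos_sub α θ
    have hnn : 0 ≤ Real.cos α * Real.cos θ / Real.cos (α - θ) := by positivity
    refine ⟨hcθ, hD, Real.sq_sqrt hnn, ?_, ?_, ?_⟩
    · refine Real.lt_sqrt_of_sq_lt ?_
      rw [lt_div_iff₀ hD]
      nlinarith [mul_pos hc (sub_pos.2 hcc), mul_nonneg (mul_pos hc hc).le (sub_nonneg.2 hD1)]
    · refine Real.sqrt_le_one.2 ?_ 
      rw [div_le_one hD]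
      nlinarith [mul_nonneg hs.le hsθ]
    · refine Real.sqrt_le_sqrt ?_
      rw [le_div_iff₀ hD]
      exact mul_le_mul_of_nonneg_left hcD hc.le
  have hmono : ∀ k l : ℝ, 0 < k → k ≤ l → (k - Real.cos α) / (1 + k) ≤ (l - Real.cos α) / (1 + l) := by
    intro k l hk0 hkl
    rw [div_le_div_iff₀ (by linarith) (by linarith)]
    nlinarith [mul_nonneg (sub_nonneg.2 hkl) (by linarith : (0:ℝ) ≤ 1 + Real.cos α)]
  have hkhalf : kap α (α / 2) = Real.sqrt (Real.cos α) := by
    have h := (hk (α / 2) (by linarith) le_rfl).1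
    unfold kap
    rw [show α - α / 2 = α / 2 by ring, mul_div_assoc, div_self h.ne', mul_one]
  have hr0 : 0 < Real.sqrt (Real.cos α) := Real.sqrt_pos.2 hc
  have hr1 : Real.sqrt (Real.cos α) < 1 := by
    rw [Real.sqrt_lt' one_pos]; linarith
  have hrr : Real.sqrt (Real.cos α) ^ 2 = Real.cos α := Real.sq_sqrt hc.le
  have hxh0 : 0 < x1 α (α / 2) := by
    obtain ⟨_, _, _, h4, _, _⟩ := hk (α / 2) (by linarith) le_rfl
    unfold x1
    exact div_pos (by linarith) (by linarith)
  have hxh1 : x1 α (α / 2) ≤ (1 - Real.cos α) / 4 := by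
    unfold x1
    rw [hkhalf]
    set r := Real.sqrt (Real.cos α) with hr
    rw [← hrr, div_le_div_iff₀ (by linarith) (by norm_num)]
    nlinarith [mul_nonneg (sub_pos.2 hr1).le (sq_nonneg (1 - r))]
  have hxi : xi α < x1 α (α / 2) := by
    unfold xi
    nlinarith [mul_pos hxh0 (sub_pos.2 hs2')]
  refine ⟨?_, mul_pos hxh0 hs2, ?_⟩
  · intro θ h0 h1
    obtain ⟨hcθ, hD, hsq, hgt, hle, hge⟩ := hk θ h0 h1
    have hkp : 0 < kap α θ := hc.trans hgt
    have hx0 : 0 < x1 α θ := div_pos (by linarith) (by linarith)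
    have hx1 : x1 α θ ≤ (1 - Real.cos α) / 2 := by
      unfold x1
      rw [div_le_div_iff₀ (by linarith) (by norm_num)]
      nlinarith [mul_nonneg (sub_nonneg.2 hle) (by linarith : (0:ℝ) ≤ 1 + Real.cos α)]
    have hsθ : 0 ≤ Real.sin θ := Real.sin_nonneg_of_nonneg_of_le_pi h0 (by linarith)
    refine ⟨hx0, hx1, ?_, ?_, ?_⟩
    · rw [Real.tan_eq_sin_div_cos, ← mul_div_assoc, div_le_iff₀ hcθ]
      have h2 : Real.sin θ ≤ Real.sin (α - θ) :=
        Real.sin_le_sin_of_le_of_le_pi_div_two (by linarith) (by linarith) (by linarith)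
      have h3 := Real.sin_sub α θ
      have h4 : x1 α θ ≤ 1 := by linarith
      nlinarith [mul_nonneg (sub_nonneg.2 h4) hsθ]
    · have e1 : 1 - x1 α θ = (1 + Real.cos α) / (1 + kap α θ) := by
        unfold x1; field_simp; ring
      have e2 : Real.cos α + x1 α θ = kap α θ * ((1 + Real.cos α) / (1 + kap α θ)) := by
        unfold x1; field_simp; ring
      rw [e1, e2, mul_pow (kap α θ), hsq]
      field_simp
    · refine lt_of_lt_of_le hxi ?_
      have := hmono (Real.sqrt (Real.cos α)) (kap α θ) hr0 hge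
      unfold x1 
      rw [hkhalf]
      exact this
  · unfold xi
    exact mul_le_mul_of_nonneg_right hxh1 hs2.le

end Pool.Agent.W2helper51.QD
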